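import Mathlib

namespace Pool.Agent.Results.MP_406a31_an.PowerBound

open Finset ComplexConjugate

/-- average over the `m`-th roots of unity of a power -/
lemma sum_pow_zero {m k : ℕ} {ζ : ℂ} (hζ : IsPrimitiveRoot ζ m) (hk : 0 < k) (hkm : k < m) :
    ∑ s : Fin m, (ζ ^ (s : ℕ)) ^ k = 0 := by
  have h1 : ζ ^ k ≠ 1 := hζ.pow_ne_one_of_pos_of_lt hk.ne' hkm
  have h2 : ∑ s ∈ range m, (ζ ^ k) ^ s = 0 := by
    have := mul_neg_geom_sum (ζ ^ k) m
    have h3 : (ζ ^ k) ^ m = 1 := by rw [← pow_mul, mul_comm, pow_mul, hζ.pow_eq_one, one_pow]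
    rw [h3, sub_self] at this
    rcases mul_eq_zero.mp this with h | h
    · exact absurd (sub_eq_zero.mp h).symm h1
    · exact h
  rw [← Fin.sum_univ_eq_sum_range (fun s => (ζ ^ k) ^ s) m] at h2
  rw [← h2]
  refine Finset.sum_congr rfl fun s _ => ?_
  rw [← pow_mul, ← pow_mul, mul_comm]

lemma norm_root {m : ℕ} {ζ : ℂ} (hζ : IsPrimitiveRoot ζ m) (hm : 0 < m) (s : ℕ) :
    ‖ζ ^ s‖ = 1 := by
  have : ‖ζ‖ = 1 := hζ.norm'_eq_one hm.ne'
  rw [norm_pow, this, one_pow]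

/-- one variable -/
lemma one_var {ρ : Type*} [DecidableEq ρ] {m : ℕ} {ζ : ℂ} (hζ : IsPrimitiveRoot ζ m)
    (R : Finset ρ) (hR : R.card < m) (a b : ρ → ℂ) (w : ρ → ℝ) (hw0 : ∀ i, 0 ≤ w i)
    (hw : ∀ i ∈ R, w i ≤ ‖a i‖ ∨ w i ≤ ‖b i‖) :
    (m : ℝ) * ∏ i ∈ R, w i ^ 2 ≤ ∑ s : Fin m, ∏ i ∈ R, ‖a i + b i * ζ ^ (s : ℕ)‖ ^ 2 := by
  classical
  have hm : 0 < m := by omega
  let p : ρ → ℂ := fun i => if w i ≤ ‖a i‖ then a i else conj (b i)
  let q : ρ → ℂ := fun i => if w i ≤ ‖a i‖ then b i else conj (a i)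
  have hp : ∀ i ∈ R, w i ≤ ‖p i‖ := by
    intro i hi
    by_cases h : w i ≤ ‖a i‖
    · simp [p, h]
    · rcases hw i hi with h' | h'
      · exact absurd h' h
      · simpa [p, h] using h'
  have hpq : ∀ i, ∀ s : ℕ, ‖p i + q i * ζ ^ s‖ = ‖a i + b i * ζ ^ s‖ := by
    intro i s
    by_cases h : w i ≤ ‖a i‖
    · simp [p, q, h]
    · have hz := norm_root hζ hm s
      have hz2 : ζ ^ s * conj (ζ ^ s) = 1 := by
        rw [Complex.mul_conj, Complex.normSq_eq_norm_sq, hz]; norm_num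
      have e1 : p i + q i * ζ ^ s = ζ ^ s * conj (a i + b i * ζ ^ s) := by
        simp only [p, q, h, if_false, map_add, map_mul]
        linear_combination (-(conj (b i))) * hz2
      rw [e1, norm_mul, hz, one_mul, RCLike.norm_conj]
  -- average of the product
  have havg : ∑ s : Fin m, ∏ i ∈ R, (p i + q i * ζ ^ (s : ℕ)) = m * ∏ i ∈ R, p i := by
    have e : ∀ s : Fin m, ∏ i ∈ R, (p i + q i * ζ ^ (s : ℕ)) =
        ∑ t ∈ R.powerset, (∏ i ∈ t, p i) * (∏ i ∈ R \ t, q i) * (ζ ^ (s : ℕ)) ^ (R \ t).card := by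
      intro s
      rw [Finset.prod_add]
      refine Finset.sum_congr rfl fun t _ => ?_
      rw [Finset.prod_mul_distrib, Finset.prod_const, mul_assoc]
    rw [Finset.sum_congr rfl fun s _ => e s, Finset.sum_comm]
    rw [Finset.sum_eq_single R]
    · simp
    · intro t ht htR
      rw [← Finset.mul_sum]
      have hpos : 0 < (R \ t).card := by
        rw [Finset.card_pos]
        by_contra hcon
        rw [Finset.not_nonempty_iff_eq_empty, Finset.sdiff_eq_empty_iff_subset] at hcon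
        exact htR (Finset.Subset.antisymm (Finset.mem_powerset.mp ht) hcon)
      have hlt : (R \ t).card < m := lt_of_le_of_lt (Finset.card_le_card Finset.sdiff_subset) hR
      rw [sum_pow_zero hζ hpos hlt, mul_zero]
    · intro h; exact absurd (Finset.mem_powerset_self R) h
  have h1 : (m : ℝ) * ∏ i ∈ R, ‖p i‖ ≤ ∑ s : Fin m, ∏ i ∈ R, ‖a i + b i * ζ ^ (s : ℕ)‖ := by
    have : ‖∑ s : Fin m, ∏ i ∈ R, (p i + q i * ζ ^ (s : ℕ))‖ = m * ∏ i ∈ R, ‖p i‖ := by
      rw [havg, norm_mul, norm_prod]; simp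
    rw [← this]
    refine (norm_sum_le _ _).trans (Finset.sum_le_sum fun s _ => ?_)
    rw [norm_prod]
    exact le_of_eq (Finset.prod_congr rfl fun i _ => hpq i s)
  have h2 : (∑ s : Fin m, ∏ i ∈ R, ‖a i + b i * ζ ^ (s : ℕ)‖) ^ 2 ≤
      m * ∑ s : Fin m, (∏ i ∈ R, ‖a i + b i * ζ ^ (s : ℕ)‖) ^ 2 := by
    have := sq_sum_le_card_mul_sum_sq (s := (Finset.univ : Finset (Fin m)))
      (f := fun s : Fin m => ∏ i ∈ R, ‖a i + b i * ζ ^ (s : ℕ)‖)
    simpa using this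
  have h3 : ∏ i ∈ R, w i ≤ ∏ i ∈ R, ‖p i‖ :=
    Finset.prod_le_prod (fun i _ => hw0 i) hp
  have h4 : (0 : ℝ) ≤ ∏ i ∈ R, w i := Finset.prod_nonneg fun i _ => hw0 i
  have hm' : (0 : ℝ) < m := by exact_mod_cast hm
  have h5 : ((m : ℝ) * ∏ i ∈ R, w i) ^ 2 ≤
      m * ∑ s : Fin m, (∏ i ∈ R, ‖a i + b i * ζ ^ (s : ℕ)‖) ^ 2 := by
    refine le_trans ?_ h2
    refine pow_le_pow_left₀ (by positivity) ?_ 2
    exact (mul_le_mul_of_nonneg_left h3 hm'.le).trans h1
  simp only [Finset.prod_pow]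
  have h6 : (m : ℝ) * ((m : ℝ) * (∏ i ∈ R, w i) ^ 2) ≤
      m * ∑ s : Fin m, (∏ i ∈ R, ‖a i + b i * ζ ^ (s : ℕ)‖) ^ 2 := by
    calc _ = ((m : ℝ) * ∏ i ∈ R, w i) ^ 2 := by ring
      _ ≤ _ := h5
  exact le_of_mul_le_mul_left h6 hm'

/-- many variables -/
lemma many_var {ρ : Type*} [DecidableEq ρ] {m : ℕ} {ζ : ℂ} (hζ : IsPrimitiveRoot ζ m)
    (R : Finset ρ) (hR : R.card < m) (N : ℕ) :
    ∀ (M : ρ → Fin N → ℂ) (r : ρ → ℂ) (w : ρ → ℝ), (∀ i, 0 ≤ w i) →
      (∀ i ∈ R, w i ≤ ‖r i‖ ∨ ∃ j, w i ≤ ‖M i j‖) →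
      (m : ℝ) ^ N * ∏ i ∈ R, w i ^ 2 ≤
        ∑ s : Fin N → Fin m, ∏ i ∈ R, ‖r i + ∑ j, M i j * ζ ^ (s j : ℕ)‖ ^ 2 := by
  classical
  induction N with
  | zero =>
    intro M r w hw0 hw
    simp only [pow_zero, one_mul, Finset.univ_unique, Finset.sum_singleton,
      Finset.univ_eq_empty, Finset.sum_empty, add_zero]
    refine Finset.prod_le_prod (fun i _ => sq_nonneg _) fun i hi => ?_
    rcases hw i hi with h | ⟨j, _⟩
    · exact pow_le_pow_left₀ (hw0 i) h 2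
    · exact j.elim0
  | succ N ih =>
    intro M r w hw0 hw
    have hm : 0 < m := by omega
    have hm' : (0 : ℝ) < m := by exact_mod_cast hm
    -- split off the first variable
    have hsplit : ∑ s : Fin (N + 1) → Fin m, ∏ i ∈ R, ‖r i + ∑ j, M i j * ζ ^ (s j : ℕ)‖ ^ 2 =
        ∑ s0 : Fin m, ∑ s' : Fin N → Fin m,
          ∏ i ∈ R, ‖(r i + M i 0 * ζ ^ (s0 : ℕ)) + ∑ j : Fin N, M i j.succ * ζ ^ (s' j : ℕ)‖ ^ 2 := by
      rw [← Fintype.sum_prod_type', ← (Fin.consEquiv (fun _ : Fin (N + 1) => Fin m)).sum_comp]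
      refine Finset.sum_congr rfl fun x _ => ?_
      refine Finset.prod_congr rfl fun i _ => ?_
      simp only [Fin.consEquiv_apply, Fin.sum_univ_succ, Fin.cons_zero, Fin.cons_succ, add_assoc]
    rw [hsplit]
    let A : ρ → Prop := fun i => ∃ j : Fin N, w i ≤ ‖M i j.succ‖
    let w' : Fin m → ρ → ℝ := fun s0 i =>
      if A i then w i else ‖r i + M i 0 * ζ ^ (s0 : ℕ)‖
    have hstep : ∀ s0 : Fin m, (m : ℝ) ^ N * ∏ i ∈ R, w' s0 i ^ 2 ≤
        ∑ s' : Fin N → Fin m,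
          ∏ i ∈ R, ‖(r i + M i 0 * ζ ^ (s0 : ℕ)) + ∑ j : Fin N, M i j.succ * ζ ^ (s' j : ℕ)‖ ^ 2 := by
      intro s0
      refine ih (fun i j => M i j.succ) (fun i => r i + M i 0 * ζ ^ (s0 : ℕ)) (w' s0) ?_ ?_
      · intro i
        by_cases h : A i
        · simpa [w', h] using hw0 i
        · simp only [w', h, if_false]; positivity
      · intro i _
        by_cases h : A i
        · obtain ⟨j, hj⟩ := h
          right
          refine ⟨j, ?_⟩
          have : A i := ⟨j, hj⟩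
          simpa [w', this] using hj
        · left; simp [w', h]
    refine le_trans ?_ (Finset.sum_le_sum fun s0 _ => hstep s0)
    rw [← Finset.mul_sum]
    have hprod : ∀ s0 : Fin m, ∏ i ∈ R, w' s0 i ^ 2 =
        (∏ i ∈ R with A i, w i ^ 2) * ∏ i ∈ R with ¬ A i, ‖r i + M i 0 * ζ ^ (s0 : ℕ)‖ ^ 2 := by
      intro s0
      rw [← Finset.prod_filter_mul_prod_filter_not R A]
      congr 1
      · refine Finset.prod_congr rfl fun i hi => ?_
        simp [w', (Finset.mem_filter.mp hi).2]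
      · refine Finset.prod_congr rfl fun i hi => ?_
        simp [w', (Finset.mem_filter.mp hi).2]
    rw [Finset.sum_congr rfl fun s0 _ => hprod s0, ← Finset.mul_sum]
    have h1 := one_var hζ (R.filter fun i => ¬ A i)
      (lt_of_le_of_lt (Finset.card_le_card (Finset.filter_subset _ _)) hR)
      r (fun i => M i 0) w hw0 (by
        intro i hi
        obtain ⟨hiR, hiA⟩ := Finset.mem_filter.mp hi
        rcases hw i hiR with h | ⟨j, hj⟩
        · exact Or.inl h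
        · right
          refine Fin.cases (motive := fun j => w i ≤ ‖M i j‖ → w i ≤ ‖M i 0‖)
            (fun h => h) (fun j' h => absurd ⟨j', h⟩ hiA) j hj)
    have h2 : (0 : ℝ) ≤ ∏ i ∈ R with A i, w i ^ 2 := Finset.prod_nonneg fun i _ => sq_nonneg _
    rw [← Finset.prod_filter_mul_prod_filter_not R A]
    calc (m : ℝ) ^ (N + 1) * ((∏ i ∈ R with A i, w i ^ 2) * ∏ i ∈ R with ¬ A i, w i ^ 2)
        = (m : ℝ) ^ N * ((∏ i ∈ R with A i, w i ^ 2) *
            (m * ∏ i ∈ R with ¬ A i, w i ^ 2)) := by ring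
      _ ≤ _ := by
        refine mul_le_mul_of_nonneg_left ?_ (by positivity)
        exact mul_le_mul_of_nonneg_left h1 h2


/-- same number of occurrences of every value -/
def SameContent {n : ℕ} (f g : Fin n → Fin n) : Prop :=
  ∀ j, (univ.filter fun i => f i = j).card = (univ.filter fun i => g i = j).card

instance {n : ℕ} (f g : Fin n → Fin n) : Decidable (SameContent f g) := by
  unfold SameContent; infer_instance

/-- number of pairs of maps with the same content; it is the sum of the squares of the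
multinomial coefficients of order `n` in `n` variables -/
def W (n : ℕ) : ℕ :=
  (univ.filter fun p : (Fin n → Fin n) × (Fin n → Fin n) => SameContent p.1 p.2).card

lemma sum_pow_conj {m a b : ℕ} {ζ : ℂ} (hζ : IsPrimitiveRoot ζ m) (ha : a < m) (hb : b < m)
    (hab : a ≠ b) : ∑ s : Fin m, (ζ ^ (s : ℕ)) ^ a * conj ((ζ ^ (s : ℕ)) ^ b) = 0 := by
  have hm : 0 < m := by omega
  have key : ∀ a b : ℕ, a < b → b < m →
      ∑ s : Fin m, (ζ ^ (s : ℕ)) ^ b * conj ((ζ ^ (s : ℕ)) ^ a) = 0 := by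
    intro a b hab hb
    rw [← sum_pow_zero hζ (k := b - a) (by omega) (by omega)]
    refine Finset.sum_congr rfl fun s _ => ?_
    have hz := norm_root hζ hm s
    have hz2 : ζ ^ (s : ℕ) * conj (ζ ^ (s : ℕ)) = 1 := by
      rw [Complex.mul_conj, Complex.normSq_eq_norm_sq, hz]; norm_num
    have hb' : b = (b - a) + a := by omega
    conv_lhs => rw [hb']
    rw [pow_add, map_pow, mul_assoc, ← mul_pow, hz2, one_pow, mul_one]
  rcases lt_or_gt_of_ne hab with h | h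
  · have := congrArg conj (key a b h hb)
    rw [map_sum, map_zero] at this
    rw [← this]
    refine Finset.sum_congr rfl fun s _ => ?_
    rw [map_mul, Complex.conj_conj, mul_comm]
  · exact key b a h ha

lemma prod_content {n : ℕ} (z : Fin n → ℂ) (f : Fin n → Fin n) :
    ∏ i, z (f i) = ∏ j, z j ^ (univ.filter fun i => f i = j).card := by
  rw [← Finset.prod_fiberwise' univ f z]
  refine Finset.prod_congr rfl fun j _ => ?_
  rw [Finset.prod_const]

lemma orth {n m : ℕ} {ζ : ℂ} (hζ : IsPrimitiveRoot ζ m) (hnm : n < m) (f g : Fin n → Fin n) :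
    ‖∑ s : Fin n → Fin m, (∏ i, ζ ^ (s (f i) : ℕ)) * conj (∏ i, ζ ^ (s (g i) : ℕ))‖ ≤
      if SameContent f g then (m : ℝ) ^ n else 0 := by
  have hm : 0 < m := by omega
  split_ifs with h
  · refine (norm_sum_le _ _).trans ?_
    have : ∀ s : Fin n → Fin m,
        ‖(∏ i, ζ ^ (s (f i) : ℕ)) * conj (∏ i, ζ ^ (s (g i) : ℕ))‖ = 1 := by
      intro s
      rw [norm_mul, RCLike.norm_conj, norm_prod, norm_prod,
        Finset.prod_congr rfl fun i _ => norm_root hζ hm _,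
        Finset.prod_congr rfl fun i _ => norm_root hζ hm _]
      simp
    rw [Finset.sum_congr rfl fun s _ => this s]
    simp
  · unfold SameContent at h
    push Not at h
    obtain ⟨j, hj⟩ := h
    have e : ∀ s : Fin n → Fin m,
        (∏ i, ζ ^ (s (f i) : ℕ)) * conj (∏ i, ζ ^ (s (g i) : ℕ)) =
        ∏ j, ((ζ ^ (s j : ℕ)) ^ (univ.filter fun i => f i = j).card *
          conj ((ζ ^ (s j : ℕ)) ^ (univ.filter fun i => g i = j).card)) := by
      intro s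
      rw [prod_content (fun j => ζ ^ (s j : ℕ)) f, prod_content (fun j => ζ ^ (s j : ℕ)) g,
        map_prod, ← Finset.prod_mul_distrib]
    rw [Finset.sum_congr rfl fun s _ => e s]
    have h2 := Finset.prod_univ_sum (fun _ : Fin n => (univ : Finset (Fin m)))
      (fun (j : Fin n) (t : Fin m) => (ζ ^ (t : ℕ)) ^ (univ.filter fun i => f i = j).card *
          conj ((ζ ^ (t : ℕ)) ^ (univ.filter fun i => g i = j).card))
    rw [Fintype.piFinset_univ] at h2
    rw [← h2, Finset.prod_eq_zero (Finset.mem_univ j), norm_zero]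
    refine sum_pow_conj hζ ?_ ?_ hj
    · exact lt_of_le_of_lt ((Finset.card_le_univ _).trans (by simp)) hnm
    · exact lt_of_le_of_lt ((Finset.card_le_univ _).trans (by simp)) hnm

/-- the normalised coefficient -/
noncomputable def coef {n : ℕ} {ι : Type*} (M : Fin n → ι → ℂ) (f : Fin n → ι) : ℂ :=
  (n.factorial : ℂ)⁻¹ * ∑ σ : Equiv.Perm (Fin n), ∏ i, M (σ i) (f i)

lemma expand {n : ℕ} (M : Fin n → Fin n → ℂ) (z : Fin n → ℂ) :
    ∏ i, ∑ j, M i j * z j = ∑ f : Fin n → Fin n, coef M f * ∏ i, z (f i) := by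
  have h1 : ∀ σ : Equiv.Perm (Fin n), ∑ f : Fin n → Fin n, (∏ i, M (σ i) (f i)) * ∏ i, z (f i) =
      ∏ i, ∑ j, M i j * z j := by
    intro σ
    rw [← Equiv.prod_comp σ (fun i => ∑ j, M i j * z j)]
    rw [Finset.prod_univ_sum, Fintype.piFinset_univ]
    refine Finset.sum_congr rfl fun f _ => ?_
    rw [Finset.prod_mul_distrib]
  have h2 : ∑ f : Fin n → Fin n, coef M f * ∏ i, z (f i) =
      (n.factorial : ℂ)⁻¹ * ∑ σ : Equiv.Perm (Fin n),
        ∑ f : Fin n → Fin n, (∏ i, M (σ i) (f i)) * ∏ i, z (f i) := by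
    rw [Finset.sum_comm, Finset.mul_sum]
    refine Finset.sum_congr rfl fun f _ => ?_
    rw [coef, mul_assoc, Finset.sum_mul]
  rw [h2, Finset.sum_congr rfl fun σ _ => h1 σ, Finset.sum_const, Finset.card_univ,
    Fintype.card_perm, Fintype.card_fin, nsmul_eq_mul, ← mul_assoc, inv_mul_cancel₀, one_mul]
  exact_mod_cast Nat.factorial_ne_zero n

/-- the numerical inequality -/
lemma numeric {n : ℕ} (M : Fin n → Fin n → ℂ) (C : ℝ) (hC : ∀ f, ‖coef M f‖ ≤ C) :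
    ∏ i, ‖M i i‖ ≤ C * Real.sqrt (W n) := by
  classical
  have hC0 : 0 ≤ C := (norm_nonneg _).trans (hC id)
  obtain ⟨ζ, hζ⟩ : ∃ ζ : ℂ, IsPrimitiveRoot ζ (n + 1) :=
    ⟨_, Complex.isPrimitiveRoot_exp (n + 1) (Nat.succ_ne_zero n)⟩
  have hlow := many_var hζ (univ : Finset (Fin n)) (by simp) n M (fun _ => 0)
    (fun i => ‖M i i‖) (fun i => norm_nonneg _) (fun i _ => Or.inr ⟨i, le_rfl⟩)
  -- upper bound
  let P : (Fin n → Fin (n + 1)) → ℂ := fun s => ∏ i, ∑ j, M i j * ζ ^ (s j : ℕ)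
  have hP : ∀ s, P s * conj (P s) = ∑ f : Fin n → Fin n, ∑ g : Fin n → Fin n,
      coef M f * conj (coef M g) *
        ((∏ i, ζ ^ (s (f i) : ℕ)) * conj (∏ i, ζ ^ (s (g i) : ℕ))) := by
    intro s
    have : P s = ∑ f : Fin n → Fin n, coef M f * ∏ i, ζ ^ (s (f i) : ℕ) :=
      expand M (fun j => ζ ^ (s j : ℕ))
    rw [this, map_sum, Finset.sum_mul_sum]
    refine Finset.sum_congr rfl fun f _ => Finset.sum_congr rfl fun g _ => ?_
    rw [map_mul]; ring
  have hnorm : ∀ s, P s * conj (P s) = ((‖P s‖ ^ 2 : ℝ) : ℂ) := by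
    intro s
    rw [Complex.mul_conj, Complex.normSq_eq_norm_sq]
  have hsum : ((∑ s, ‖P s‖ ^ 2 : ℝ) : ℂ) = ∑ f : Fin n → Fin n, ∑ g : Fin n → Fin n,
      coef M f * conj (coef M g) *
        ∑ s : Fin n → Fin (n + 1),
          ((∏ i, ζ ^ (s (f i) : ℕ)) * conj (∏ i, ζ ^ (s (g i) : ℕ))) := by
    rw [Complex.ofReal_sum, Finset.sum_congr rfl fun s _ => (hnorm s).symm,
      Finset.sum_congr rfl fun s _ => hP s, Finset.sum_comm]
    refine Finset.sum_congr rfl fun f _ => ?_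
    rw [Finset.sum_comm]
    refine Finset.sum_congr rfl fun g _ => ?_
    rw [Finset.mul_sum]
  have hup : ∑ s, ‖P s‖ ^ 2 ≤ ((n + 1 : ℕ) : ℝ) ^ n * (C ^ 2 * W n) := by
    have h0 : 0 ≤ ∑ s, ‖P s‖ ^ 2 := Finset.sum_nonneg fun s _ => sq_nonneg _
    have h1 : ∑ s, ‖P s‖ ^ 2 = ‖((∑ s, ‖P s‖ ^ 2 : ℝ) : ℂ)‖ := by
      rw [Complex.norm_real, Real.norm_of_nonneg h0]
    rw [h1, hsum]
    refine (norm_sum_le _ _).trans ?_
    have h2 : ∀ f : Fin n → Fin n, ‖∑ g : Fin n → Fin n, coef M f * conj (coef M g) *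
        ∑ s : Fin n → Fin (n + 1),
          ((∏ i, ζ ^ (s (f i) : ℕ)) * conj (∏ i, ζ ^ (s (g i) : ℕ)))‖ ≤
        ∑ g : Fin n → Fin n, C ^ 2 * (if SameContent f g then ((n + 1 : ℕ) : ℝ) ^ n else 0) := by
      intro f
      refine (norm_sum_le _ _).trans (Finset.sum_le_sum fun g _ => ?_)
      rw [norm_mul, norm_mul, RCLike.norm_conj]
      refine mul_le_mul ?_ (orth hζ (Nat.lt_succ_self n) f g) (norm_nonneg _) (sq_nonneg C)
      rw [sq]
      exact mul_le_mul (hC f) (hC g) (norm_nonneg _) hC0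
    refine (Finset.sum_le_sum fun f _ => h2 f).trans (le_of_eq ?_)
    rw [W, Finset.card_filter]
    push_cast
    rw [Fintype.sum_prod_type, Finset.mul_sum, Finset.mul_sum]
    refine Finset.sum_congr rfl fun f _ => ?_
    rw [Finset.mul_sum, Finset.mul_sum]
    refine Finset.sum_congr rfl fun g _ => ?_
    split_ifs <;> ring
  have hlow' : ((n + 1 : ℕ) : ℝ) ^ n * (∏ i, ‖M i i‖) ^ 2 ≤ ∑ s, ‖P s‖ ^ 2 := by
    refine le_trans (le_of_eq ?_) (hlow.trans (le_of_eq ?_))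
    · rw [Finset.prod_pow]
    · refine Finset.sum_congr rfl fun s _ => ?_
      rw [Finset.prod_pow, ← norm_prod]
      simp only [zero_add, P]
  have hpos : (0 : ℝ) < ((n + 1 : ℕ) : ℝ) ^ n := by positivity
  have hfin : (∏ i, ‖M i i‖) ^ 2 ≤ C ^ 2 * W n :=
    le_of_mul_le_mul_left (hlow'.trans hup) hpos
  have h0 : 0 ≤ C * Real.sqrt (W n) := by positivity
  refine le_of_sq_le_sq ?_ h0 |> fun h => h
  rw [mul_pow, Real.sq_sqrt (by positivity)]
  exact hfin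


section Operators

open scoped InnerProductSpace

variable {H K : Type*} [NormedAddCommGroup H] [InnerProductSpace ℂ H]
  [NormedAddCommGroup K] [InnerProductSpace ℂ K]

/-- `x₁ ⊙ ⋯ ⊙ xₙ`, where `t x` stands for `x₁ ⊗ ⋯ ⊗ xₙ` -/
noncomputable def symVec {n : ℕ} (t : MultilinearMap ℂ (fun _ : Fin n => H) K)
    (x : Fin n → H) : K :=
  (n.factorial : ℂ)⁻¹ • ∑ π : Equiv.Perm (Fin n), t (fun i => x (π i))

lemma coef_perm {n : ℕ} {ι : Type*} (M : Fin n → ι → ℂ) (f : Fin n → ι)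
    (π : Equiv.Perm (Fin n)) : coef M (fun i => f (π i)) = coef M f := by
  unfold coef
  congr 1
  rw [← Equiv.sum_comp (Equiv.mulRight π) (fun σ => ∏ i, M (σ i) (f (π i)))]
  refine Finset.sum_congr rfl fun σ _ => ?_
  rw [← Equiv.prod_comp π (fun i => M (σ i) (f i))]
  rfl

lemma eigen {n : ℕ} {ι : Type*} (t : MultilinearMap ℂ (fun _ : Fin n => H) K)
    (A : Fin n → H →L[ℂ] H) (T : K →ₗ[ℂ] K)
    (hT : ∀ x, T (t x) = (n.factorial : ℂ)⁻¹ •
      ∑ σ : Equiv.Perm (Fin n), t (fun i => A (σ i) (x i)))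
    (b : ι → H) (lam : Fin n → ι → ℂ) (hA : ∀ i k, A i (b k) = lam i k • b k)
    (f : Fin n → ι) :
    T (symVec t (fun i => b (f i))) = coef lam f • symVec t (fun i => b (f i)) := by
  unfold symVec
  rw [map_smul, map_sum, smul_comm]
  congr 1
  rw [Finset.smul_sum]
  refine Finset.sum_congr rfl fun π _ => ?_
  rw [hT, ← coef_perm lam f π, coef, mul_smul, Finset.sum_smul]
  congr 1
  refine Finset.sum_congr rfl fun σ _ => ?_
  rw [← t.map_smul_univ]
  congr 1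
  funext i
  rw [hA]

lemma symVec_ne_zero {n : ℕ} {ι : Type*} [DecidableEq ι]
    (t : MultilinearMap ℂ (fun _ : Fin n => H) K)
    (ht : ∀ x y, ⟪t x, t y⟫_ℂ = ∏ i, ⟪x i, y i⟫_ℂ)
    (b : ι → H) (hb : Orthonormal ℂ b) (f : Fin n → ι) :
    symVec t (fun i => b (f i)) ≠ 0 := by
  intro h
  have h1 : ⟪t (fun i => b (f i)), symVec t (fun i => b (f i))⟫_ℂ = 0 := by
    rw [h, inner_zero_right]
  unfold symVec at h1
  rw [inner_smul_right, inner_sum] at h1
  have hfac : (n.factorial : ℂ)⁻¹ ≠ 0 := by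
    apply inv_ne_zero; exact_mod_cast Nat.factorial_ne_zero n
  have h2 := (mul_eq_zero.mp h1).resolve_left hfac
  have h3 : ∀ π : Equiv.Perm (Fin n),
      ⟪t (fun i => b (f i)), t (fun i => b (f (π i)))⟫_ℂ =
      (((if ∀ i, f i = f (π i) then 1 else 0 : ℕ)) : ℂ) := by
    intro π
    rw [ht]
    simp only [orthonormal_iff_ite.mp hb]
    rw [Finset.prod_ite_zero]
    simp
  rw [Finset.sum_congr rfl fun π _ => h3 π, ← Nat.cast_sum] at h2
  have h4 : (∑ π : Equiv.Perm (Fin n), (if ∀ i, f i = f (π i) then 1 else 0 : ℕ)) = 0 := by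
    exact_mod_cast h2
  have h5 := (Finset.sum_eq_zero_iff.mp h4) 1 (Finset.mem_univ _)
  simp at h5

/-- the norm of a diagonal operator -/
lemma norm_diag {ι : Type*} [CompleteSpace H] (b : HilbertBasis ι ℂ H) (A : H →L[ℂ] H)
    (lam : ι → ℂ) (hA : ∀ k, A (b k) = lam k • b k) (L : ℝ) (hL0 : 0 ≤ L)
    (hL : ∀ k, ‖lam k‖ ≤ L) : ‖A‖ ≤ L := by
  classical
  refine A.opNorm_le_bound hL0 fun x => ?_
  have h1 : HasSum (fun i => b.repr x i • b i) x := b.hasSum_repr x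
  have h2 : HasSum (fun i => (b.repr x i * lam i) • b i) (A x) := by
    have := h1.mapL A
    refine this.congr_fun ?_ |> fun h => h
    intro i
    rw [map_smul, hA, smul_smul]
  refine le_of_tendsto (h2.norm) (Filter.Eventually.of_forall fun s => ?_)
  have h3 : ‖∑ i ∈ s, (b.repr x i * lam i) • b i‖ ^ 2 = ∑ i ∈ s, ‖b.repr x i * lam i‖ ^ 2 := by
    have := b.orthonormal.inner_sum (fun i => b.repr x i * lam i) (fun i => b.repr x i * lam i) s
    rw [inner_self_eq_norm_sq_to_K] at this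
    have h4 : ((‖∑ i ∈ s, (b.repr x i * lam i) • b i‖ ^ 2 : ℝ) : ℂ) =
        ((∑ i ∈ s, ‖b.repr x i * lam i‖ ^ 2 : ℝ) : ℂ) := by
      rw [Complex.ofReal_sum]
      refine Eq.trans ?_ (this.trans (Finset.sum_congr rfl fun i _ => ?_))
      · push_cast; rfl
      · rw [mul_comm, Complex.mul_conj, Complex.normSq_eq_norm_sq]
    exact_mod_cast h4
  have h5 : ∑ i ∈ s, ‖b.repr x i * lam i‖ ^ 2 ≤ L ^ 2 * ‖x‖ ^ 2 := by
    calc ∑ i ∈ s, ‖b.repr x i * lam i‖ ^ 2 ≤ ∑ i ∈ s, L ^ 2 * ‖⟪b i, x⟫_ℂ‖ ^ 2 := by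
          refine Finset.sum_le_sum fun i _ => ?_
          rw [norm_mul, mul_pow, mul_comm, b.repr_apply_apply]
          exact mul_le_mul_of_nonneg_right (pow_le_pow_left₀ (norm_nonneg _) (hL i) 2)
            (sq_nonneg _)
      _ = L ^ 2 * ∑ i ∈ s, ‖⟪b i, x⟫_ℂ‖ ^ 2 := by rw [Finset.mul_sum]
      _ ≤ L ^ 2 * ‖x‖ ^ 2 :=
          mul_le_mul_of_nonneg_left (b.orthonormal.sum_inner_products_le x) (sq_nonneg L)
  have h6 : ‖∑ i ∈ s, (b.repr x i * lam i) • b i‖ ^ 2 ≤ (L * ‖x‖) ^ 2 := by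
    rw [h3, mul_pow]; exact h5
  exact (pow_le_pow_iff_left₀ (norm_nonneg _) (by positivity) two_ne_zero).mp h6

/-- **Lower bound for the norm of `A₁ ⊙ ⋯ ⊙ Aₙ`.**  `t x` is `x₁ ⊗ ⋯ ⊗ xₙ`, `symVec t x` is
`x₁ ⊙ ⋯ ⊙ xₙ`, `T` is `(1/n!) ∑ A_{σ 1} ⊗ ⋯ ⊗ A_{σ n}`, the `Aᵢ` are diagonal with respect to the
orthonormal basis `b`, and `C` bounds the norm of `T` on the vectors `x₁ ⊙ ⋯ ⊙ xₙ`. -/
theorem result {H K ι : Type*} [NormedAddCommGroup H] [InnerProductSpace ℂ H] [CompleteSpace H]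
    [NormedAddCommGroup K] [InnerProductSpace ℂ K] (n : ℕ)
    (t : MultilinearMap ℂ (fun _ : Fin n => H) K)
    (ht : ∀ x y, ⟪t x, t y⟫_ℂ = ∏ i, ⟪x i, y i⟫_ℂ)
    (A : Fin n → H →L[ℂ] H) (b : HilbertBasis ι ℂ H) (lam : Fin n → ι → ℂ)
    (hA : ∀ i k, A i (b k) = lam i k • b k)
    (T : K →ₗ[ℂ] K)
    (hT : ∀ x, T (t x) = (n.factorial : ℂ)⁻¹ •
      ∑ σ : Equiv.Perm (Fin n), t (fun i => A (σ i) (x i)))
    (C : ℝ) (hC0 : 0 ≤ C) (hC : ∀ x, ‖T (symVec t x)‖ ≤ C * ‖symVec t x‖) :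
    ∏ i, ‖A i‖ ≤ C * Real.sqrt (W n) := by
  classical
  have hcoef : ∀ f : Fin n → ι, ‖coef lam f‖ ≤ C := by
    intro f
    have h1 := hC (fun i => b (f i))
    rw [eigen t A T hT b lam hA f, norm_smul] at h1
    exact le_of_mul_le_mul_right h1 (norm_pos_iff.mpr (symVec_ne_zero t ht b b.orthonormal f))
  have hk : ∀ k : Fin n → ι, ∏ i, ‖lam i (k i)‖ ≤ C * Real.sqrt (W n) := fun k =>
    numeric (fun i j => lam i (k j)) C (fun f => hcoef (fun i => k (f i)))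
  have hR : 0 ≤ C * Real.sqrt (W n) := by positivity
  by_cases h0 : ∃ i, ‖A i‖ = 0
  · obtain ⟨i, hi⟩ := h0
    rw [Finset.prod_eq_zero (Finset.mem_univ i) hi]
    exact hR
  · push Not at h0
    have hpos : ∀ i, 0 < ‖A i‖ := fun i => lt_of_le_of_ne (norm_nonneg _) (h0 i).symm
    have hε : ∀ ε : ℝ, 0 < ε → ε < 1 → (1 - ε) ^ n * ∏ i, ‖A i‖ ≤ C * Real.sqrt (W n) := by
      intro ε hε hε1
      have hex : ∀ i, ∃ k, (1 - ε) * ‖A i‖ ≤ ‖lam i k‖ := by
        intro i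
        by_contra hcon
        push Not at hcon
        have := norm_diag b (A i) (lam i) (hA i) ((1 - ε) * ‖A i‖)
          (mul_nonneg (by linarith) (norm_nonneg _)) (fun k => (hcon k).le)
        nlinarith [hpos i]
      choose k hk' using hex
      refine le_trans ?_ (hk k)
      have : (1 - ε) ^ n * ∏ i, ‖A i‖ = ∏ i, ((1 - ε) * ‖A i‖) := by
        rw [Finset.prod_mul_distrib]; simp
      rw [this]
      exact Finset.prod_le_prod (fun i _ => mul_nonneg (by linarith) (norm_nonneg _))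
        (fun i _ => hk' i)
    have hlim : Filter.Tendsto (fun ε : ℝ => (1 - ε) ^ n * ∏ i, ‖A i‖)
        (nhdsWithin 0 (Set.Ioi 0)) (nhds (∏ i, ‖A i‖)) := by
      have hc : Continuous (fun ε : ℝ => (1 - ε) ^ n * ∏ i, ‖A i‖) := by fun_prop
      have := hc.tendsto 0
      simp only [sub_zero, one_pow, one_mul] at this
      exact this.mono_left nhdsWithin_le_nhds
    refine le_of_tendsto hlim ?_
    filter_upwards [Ioo_mem_nhdsGT (zero_lt_one (α := ℝ))] with ε hε'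
    exact hε ε hε'.1 hε'.2

end Operators

end Pool.Agent.Results.MP_406a31_an.PowerBound
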